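import Pool.Agent.Helper41.KV.GoalsE

/-!
# Packet KV-WGN (MP_66be51_an): weighted Gagliardo-Nirenberg inequalities
-/

namespace Pool.Agent.Helper5.KV

open Real MeasureTheory Pool.Agent.Helper41.KV

/-- a positive bounded weight with derivative `w'`, `|w'| ≤ l w` -/
structure Wgt (w w' : ℝ → ℝ) (l M : ℝ) : Prop where
  d : ∀ y, HasDerivAt w (w' y) y
  c : Continuous w'
  p : ∀ y, 0 < w y
  b : ∀ y, w y ≤ M
  l : ∀ y, |w' y| ≤ l * w y

theorem Wgt.cw {w w' : ℝ → ℝ} {l M : ℝ} (h : Wgt w w' l M) : Continuous w :=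
  continuous_iff_continuousAt.2 fun y => (h.d y).continuousAt

theorem Wgt.sqrt {w w' : ℝ → ℝ} {l M : ℝ} (h : Wgt w w' l M) :
    Wgt (fun y => √(w y)) (fun y => w' y / (2 * √(w y))) (l / 2) (√M) where
  d := fun y => (h.d y).sqrt (h.p y).ne'
  c := h.c.div (continuous_const.mul h.cw.sqrt)
    (fun y => by have := Real.sqrt_pos.2 (h.p y); positivity)
  p := fun y => Real.sqrt_pos.2 (h.p y)
  b := fun y => Real.sqrt_le_sqrt (h.b y)
  l := fun y => by
    have h1 := Real.sqrt_pos.2 (h.p y)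
    have h2 : √(w y) * √(w y) = w y := Real.mul_self_sqrt (h.p y).le
    rw [abs_div, abs_of_pos (by positivity : 0 < 2 * √(w y)), div_le_iff₀ (by positivity)]
    calc |w' y| ≤ l * w y := h.l y
      _ = l * (√(w y) * √(w y)) := by rw [h2]
      _ = l / 2 * √(w y) * (2 * √(w y)) := by ring

theorem bint {c g : ℝ → ℝ} {M : ℝ} (hg : Integrable g) (hc : Continuous c)
    (hM : ∀ y, |c y| ≤ M) : Integrable (fun y => c y * g y) :=
  hg.bdd_mul hc.aestronglyMeasurable (Filter.Eventually.of_forall fun y => by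
    rw [Real.norm_eq_abs]; exact hM y)

theorem Wgt.int {w w' : ℝ → ℝ} {l M : ℝ} (h : Wgt w w' l M) {g : ℝ → ℝ} (hg : Integrable g) :
    Integrable (fun y => w y * g y) :=
  bint hg h.cw (fun y => by rw [abs_of_pos (h.p y)]; exact h.b y)

theorem Wgt.int' {w w' : ℝ → ℝ} {l M : ℝ} (h : Wgt w w' l M) (hl : 0 ≤ l) {g : ℝ → ℝ}
    (hg : Integrable g) : Integrable (fun y => w' y * g y) :=
  bint hg h.c (fun y => (h.l y).trans (mul_le_mul_of_nonneg_left (h.b y) hl))

/-- Cauchy–Schwarz -/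
theorem cs {a b : ℝ → ℝ} (ha : Integrable (fun y => a y ^ 2)) (hb : Integrable (fun y => b y ^ 2))
    (hab : Integrable (fun y => a y * b y)) :
    (∫ y, a y * b y) ^ 2 ≤ (∫ y, a y ^ 2) * ∫ y, b y ^ 2 := by
  have h : ∀ t : ℝ, 0 ≤ (∫ y, b y ^ 2) * (t * t) + (2 * ∫ y, a y * b y) * t + ∫ y, a y ^ 2 := by
    intro t
    have h1 : ∫ y, (a y + t * b y) ^ 2 =
        (∫ y, b y ^ 2) * (t * t) + (2 * ∫ y, a y * b y) * t + ∫ y, a y ^ 2 := by
      have h2 : (fun y => (a y + t * b y) ^ 2) =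
          fun y => (t * t) * b y ^ 2 + (2 * t) * (a y * b y) + a y ^ 2 := by
        funext y; ring
      have i1 : Integrable (fun y => (t * t) * b y ^ 2) := hb.const_mul _
      have i2 : Integrable (fun y => (2 * t) * (a y * b y)) := hab.const_mul _
      have i3 : Integrable (fun y => (t * t) * b y ^ 2 + (2 * t) * (a y * b y)) := i1.add i2
      rw [h2, integral_add i3 ha, integral_add i1 i2, integral_const_mul, integral_const_mul]
      ring
    rw [← h1]
    exact integral_nonneg fun y => sq_nonneg _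
  have := discrim_le_zero h
  unfold discrim at this
  nlinarith

/-- sup bound by the integral of the derivative -/
theorem sup_bound {g g' : ℝ → ℝ} (h : ∀ x, HasDerivAt g (g' x) x) (hg : Integrable g)
    (hg' : Integrable g') (y : ℝ) : g y ≤ ∫ x, |g' x| := by
  have h1 : Filter.Tendsto g Filter.atBot (nhds 0) :=
    tendsto_zero_of_hasDerivAt_of_integrableOn_Iic (a := 0) (fun x _ => h x)
      hg'.integrableOn hg.integrableOn
  have h2 := integral_Iic_of_hasDerivAt_of_tendsto' (a := y) (fun x _ => h x) hg'.integrableOn h1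
  calc g y = ∫ x in Set.Iic y, g' x := by rw [h2]; simp
    _ ≤ ∫ x in Set.Iic y, |g' x| :=
        integral_mono hg'.integrableOn hg'.abs.integrableOn (fun x => le_abs_self _)
    _ ≤ ∫ x, |g' x| :=
        setIntegral_le_integral hg'.abs (Filter.Eventually.of_forall fun x => abs_nonneg _)

section main

variable {f f1 f2 : ℝ → ℝ}

/-- `sup (w f²) ≤ l ∫ w f² + 2 ∫ w |f f'|` -/
theorem supw {w w' : ℝ → ℝ} {l M : ℝ} (h : Wgt w w' l M) (hl : 0 ≤ l)
    (hd : ∀ x, HasDerivAt f (f1 x) x)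
    (i00 : Integrable (fun y => f y ^ 2)) (i01 : Integrable (fun y => f y * f1 y)) (y : ℝ) :
    w y * f y ^ 2 ≤ l * (∫ x, w x * f x ^ 2) + 2 * ∫ x, w x * |f x * f1 x| := by
  have h1 : ∀ x, HasDerivAt (fun x => w x * f x ^ 2) (w' x * f x ^ 2 + 2 * (w x * (f x * f1 x))) x := by
    intro x
    exact ((h.d x).fun_mul ((hd x).fun_pow 2)).congr_deriv (by push_cast; ring)
  have iA := h.int i00
  have iB := h.int' hl i00
  have iC := h.int i01
  have iD := h.int i01.abs
  have h2 := sup_bound h1 iA (iB.add (iC.const_mul 2)) y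
  refine h2.trans ?_
  calc ∫ x, |w' x * f x ^ 2 + 2 * (w x * (f x * f1 x))|
      ≤ ∫ x, (l * (w x * f x ^ 2) + 2 * (w x * |f x * f1 x|)) := by
        refine integral_mono (iB.add (iC.const_mul 2)).abs
          ((iA.const_mul l).add (iD.const_mul 2)) (fun x => ?_)
        simp only
        refine (abs_add_le _ _).trans (add_le_add ?_ ?_)
        · rw [abs_mul, abs_of_nonneg (sq_nonneg (f x)), ← mul_assoc]
          exact mul_le_mul_of_nonneg_right (h.l x) (sq_nonneg _)
        · rw [abs_mul, abs_mul (w x), abs_of_pos (h.p x), abs_of_pos (two_pos)]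
    _ = _ := by
        rw [integral_add (iA.const_mul l) (iD.const_mul 2), integral_const_mul, integral_const_mul]

/-- `∫ w f'² ≤ ∫ w |f f''| + l ∫ w |f f'|` -/
theorem ibp {w w' : ℝ → ℝ} {l M : ℝ} (h : Wgt w w' l M) (hl : 0 ≤ l)
    (hd : ∀ x, HasDerivAt f (f1 x) x) (hd1 : ∀ x, HasDerivAt f1 (f2 x) x)
    (i11 : Integrable (fun y => f1 y ^ 2))
    (i01 : Integrable (fun y => f y * f1 y)) (i02 : Integrable (fun y => f y * f2 y)) :
    ∫ x, w x * f1 x ^ 2 ≤ (∫ x, w x * |f x * f2 x|) + l * ∫ x, w x * |f x * f1 x| := by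
  have h1 : ∀ x, HasDerivAt (fun x => w x * (f x * f1 x))
      (w' x * (f x * f1 x) + w x * f1 x ^ 2 + w x * (f x * f2 x)) x := by
    intro x
    exact ((h.d x).fun_mul ((hd x).fun_mul (hd1 x))).congr_deriv (by ring)
  have iA := h.int' hl i01
  have iB := h.int i11
  have iC := h.int i02
  have iD := h.int i01
  have h2 := integral_eq_zero_of_hasDerivAt_of_integrable h1 ((iA.add iB).add iC) iD
  have iC' := h.int i02.abs
  have iD' := h.int i01.abs
  have h3 : ∫ x, w x * f1 x ^ 2 ≤ ∫ x, ((w' x * (f x * f1 x) + w x * f1 x ^ 2 + w x * (f x * f2 x))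
      + (w x * |f x * f2 x| + l * (w x * |f x * f1 x|))) := by
    refine integral_mono iB (((iA.add iB).add iC).add (iC'.add (iD'.const_mul l))) (fun x => ?_)
    simp only
    have e1 : -(w x * |f x * f2 x|) ≤ w x * (f x * f2 x) := by
      have := neg_abs_le (f x * f2 x)
      have := mul_le_mul_of_nonneg_left this (h.p x).le
      linarith
    have e2 : -(l * (w x * |f x * f1 x|)) ≤ w' x * (f x * f1 x) := by
      have h4 : |w' x * (f x * f1 x)| ≤ l * (w x * |f x * f1 x|) := by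
        rw [abs_mul, ← mul_assoc]
        exact mul_le_mul_of_nonneg_right (h.l x) (abs_nonneg _)
      have := neg_abs_le (w' x * (f x * f1 x))
      linarith
    linarith
  have j1 : Integrable (fun x => w' x * (f x * f1 x) + w x * f1 x ^ 2 + w x * (f x * f2 x)) :=
    (iA.add iB).add iC
  have j2 : Integrable (fun x => l * (w x * |f x * f1 x|)) := iD'.const_mul l
  have j3 : Integrable (fun x => w x * |f x * f2 x| + l * (w x * |f x * f1 x|)) := iC'.add j2
  rw [integral_add j1 j3, h2, integral_add iC' j2, integral_const_mul] at h3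
  linarith

end main

theorem thm_WGN : S_WGN := by
  intro w M hw hwp hwM hw' f hf hf0 hf1 hf2
  -- derivatives
  set f1 := deriv f with hf1def
  set f2 := deriv f1 with hf2def
  have hd : ∀ x, HasDerivAt f (f1 x) x := fun x =>
    ((hf.differentiable (by norm_num)) x).hasDerivAt
  have hfc1 : ContDiff ℝ 1 f1 := by
    have : ContDiff ℝ (1 + 1) f := by
      have h2 : ((1 : WithTop ℕ∞) + 1) = 2 := by norm_num
      rw [h2]; exact hf
    exact (contDiff_succ_iff_deriv.1 this).2.2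
  have hd1 : ∀ x, HasDerivAt f1 (f2 x) x := fun x =>
    ((hfc1.differentiable (by norm_num)) x).hasDerivAt
  have hW : Wgt w (deriv w) 1 M :=
    { d := fun y => ((hw.differentiable (by norm_num)) y).hasDerivAt
      c := hw.continuous_deriv (by norm_num)
      p := hwp
      b := hwM
      l := fun y => by rw [one_mul]; exact hw' y }
  have hV := hW.sqrt
  have hU := hV.sqrt
  set v : ℝ → ℝ := fun y => √(w y) with hv
  set u : ℝ → ℝ := fun y => √(√(w y)) with hu
  have hvw : ∀ y, v y ^ 2 = w y := fun y => Real.sq_sqrt (hwp y).le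
  have huv : ∀ y, u y ^ 2 = v y := fun y => Real.sq_sqrt (Real.sqrt_nonneg _)
  -- integrability
  have i00 : Integrable (fun y => f y ^ 2) := hf0.integrable_sq
  have i11 : Integrable (fun y => f1 y ^ 2) := hf1.integrable_sq
  have i22 : Integrable (fun y => f2 y ^ 2) := hf2.integrable_sq
  have i01 : Integrable (fun y => f y * f1 y) := hf0.integrable_mul hf1
  have i02 : Integrable (fun y => f y * f2 y) := hf0.integrable_mul hf2
  set N := ∫ y, f y ^ 2 with hN
  set A := ∫ y, w y * (f2 y ^ 2 + f y ^ 2) with hA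
  set D := ∫ y, w y * (f1 y ^ 2 + f y ^ 2) with hD
  have hN0 : 0 ≤ N := integral_nonneg fun y => sq_nonneg _
  -- the basic integrals
  set w0 := ∫ y, w y * f y ^ 2 with hw0
  set w1 := ∫ y, w y * f1 y ^ 2 with hw1
  set w2 := ∫ y, w y * f2 y ^ 2 with hw2
  set v0 := ∫ y, v y * f y ^ 2 with hv0
  set v1 := ∫ y, v y * f1 y ^ 2 with hv1
  set u0 := ∫ y, u y * f y ^ 2 with hu0
  have pos : ∀ (c g : ℝ → ℝ), (∀ y, 0 < c y) → 0 ≤ ∫ y, c y * g y ^ 2 := fun c g hc =>
    integral_nonneg fun y => mul_nonneg (hc y).le (sq_nonneg _)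
  have posa : ∀ (c g : ℝ → ℝ), (∀ y, 0 < c y) → 0 ≤ ∫ y, c y * |g y| := fun c g hc =>
    integral_nonneg fun y => mul_nonneg (hc y).le (abs_nonneg _)
  have w00 : 0 ≤ w0 := pos _ _ hW.p
  have w10 : 0 ≤ w1 := pos _ _ hW.p
  have w20 : 0 ≤ w2 := pos _ _ hW.p
  have v00 : 0 ≤ v0 := pos _ _ hV.p
  have v10 : 0 ≤ v1 := pos _ _ hV.p
  have u00 : 0 ≤ u0 := pos _ _ hU.p
  have hAe : A = w2 + w0 := by
    rw [hA, hw2, hw0, ← integral_add (hW.int i22) (hW.int i00)]
    congr 1
    funext y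
    ring
  have hDe : D = w1 + w0 := by
    rw [hD, hw1, hw0, ← integral_add (hW.int i11) (hW.int i00)]
    congr 1
    funext y
    ring
  have hA0 : 0 ≤ A := by rw [hAe]; positivity
  have hD0 : 0 ≤ D := by rw [hDe]; positivity
  -- (∫ c |f g|)² ≤ (∫ f²)(∫ c² g²)
  have key : ∀ (c : ℝ → ℝ) (c' : ℝ → ℝ) (l K : ℝ), Wgt c c' l K → ∀ (g : ℝ → ℝ),
      Integrable (fun y => g y ^ 2) → Integrable (fun y => f y * g y) →
      Integrable (fun y => c y ^ 2 * g y ^ 2) →
      (∫ y, c y * |f y * g y|) ^ 2 ≤ N * ∫ y, c y ^ 2 * g y ^ 2 := by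
    intro c c' l K hc g hg hfg hcg
    have e1 : (fun y => c y * |f y * g y|) = fun y => |f y| * (c y * |g y|) := by
      funext y; rw [abs_mul]; ring
    have e2 : (fun y => c y ^ 2 * g y ^ 2) = fun y => (c y * |g y|) ^ 2 := by
      funext y; rw [mul_pow, sq_abs]
    have e3 : (fun y => f y ^ 2) = fun y => |f y| ^ 2 := by
      funext y; rw [sq_abs]
    have h1 := cs (a := fun y => |f y|) (b := fun y => c y * |g y|) (by rw [← e3]; exact i00)
      (by rw [← e2]; exact hcg) (by rw [← e1]; exact hc.int hfg.abs)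
    rw [hN, e1, e2, e3]
    exact h1
  have iv2 : ∀ g : ℝ → ℝ, Integrable (fun y => g y ^ 2) → Integrable (fun y => v y ^ 2 * g y ^ 2) := by
    intro g hg
    simp only [hvw]
    exact hW.int hg
  have iu2 : ∀ g : ℝ → ℝ, Integrable (fun y => g y ^ 2) → Integrable (fun y => u y ^ 2 * g y ^ 2) := by
    intro g hg
    simp only [huv]
    exact hV.int hg
  -- elementary pointwise estimate for ∫ c |f f'| ≤ (∫ c f² + ∫ c f'²)/2
  have amgm : ∀ (c : ℝ → ℝ) (c' : ℝ → ℝ) (l K : ℝ), Wgt c c' l K → ∀ (g : ℝ → ℝ),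
      Integrable (fun y => g y ^ 2) → Integrable (fun y => f y * g y) →
      2 * (∫ y, c y * |f y * g y|) ≤ (∫ y, c y * f y ^ 2) + ∫ y, c y * g y ^ 2 := by
    intro c c' l K hc g hg hfg
    rw [← integral_add (hc.int i00) (hc.int hg), ← integral_const_mul]
    refine integral_mono ((hc.int hfg.abs).const_mul 2) ((hc.int i00).add (hc.int hg)) (fun y => ?_)
    simp only
    rw [abs_mul]
    have h1 : 2 * (|f y| * |g y|) ≤ f y ^ 2 + g y ^ 2 := by
      rw [← sq_abs (f y), ← sq_abs (g y)]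
      nlinarith [sq_nonneg (|f y| - |g y|)]
    have := mul_le_mul_of_nonneg_left h1 (hc.p y).le
    linarith
  -- (d)
  have hd_ : w1 ≤ 2 * A := by
    have h1 := ibp hW zero_le_one hd hd1 i11 i01 i02
    have h2 := amgm w _ _ _ hW f1 i11 i01
    have h3 := amgm w _ _ _ hW f2 i22 i02
    rw [← hw1, ← hw0] at h2
    rw [← hw2, ← hw0] at h3
    rw [← hw1] at h1
    rw [hAe]
    linarith
  -- (s)
  set P := √(N * A) with hP
  have hP0 : 0 ≤ P := Real.sqrt_nonneg _
  have hPsq : P ^ 2 = N * A := Real.sq_sqrt (mul_nonneg hN0 hA0)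
  have le_of_sq : ∀ a b : ℝ, 0 ≤ b → a ^ 2 ≤ b ^ 2 → a ≤ b := fun a b hb h =>
    le_trans (le_abs_self a) (abs_le_of_sq_le_sq h hb)
  have hsY : v0 ≤ P := by
    have h1 := key v _ _ _ hV f i00 (by simpa [pow_two] using i00) (iv2 f i00)
    have e1 : (∫ y, v y * |f y * f y|) = v0 := by
      rw [hv0]; congr 1; funext y; rw [abs_mul_self, pow_two]
    have e2 : (∫ y, v y ^ 2 * f y ^ 2) = w0 := by
      rw [hw0]; congr 1; funext y; rw [hvw]
    rw [e1, e2] at h1
    apply le_of_sq _ _ hP0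
    rw [hPsq]
    refine h1.trans (mul_le_mul_of_nonneg_left ?_ hN0)
    rw [hAe]; linarith
  have hsZ : (∫ y, v y * |f y * f2 y|) ≤ P := by
    have h1 := key v _ _ _ hV f2 i22 i02 (iv2 f2 i22)
    have e2 : (∫ y, v y ^ 2 * f2 y ^ 2) = w2 := by
      rw [hw2]; congr 1; funext y; rw [hvw]
    rw [e2] at h1
    apply le_of_sq _ _ hP0
    rw [hPsq]
    refine h1.trans (mul_le_mul_of_nonneg_left ?_ hN0)
    rw [hAe]; linarith
  have hsX : v1 ≤ 2 * P := by
    have h1 := ibp hV (by norm_num) hd hd1 i11 i01 i02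
    have h2 := amgm v _ _ _ hV f1 i11 i01
    rw [← hv1, ← hv0] at h2
    rw [← hv1] at h1
    have h3 : (1 : ℝ) / 2 * (∫ x, v x * |f x * f1 x|) ≤ (v0 + v1) / 4 := by linarith
    linarith
  -- (p)
  have hNP0 : 0 ≤ N * P := mul_nonneg hN0 hP0
  set R := √(N * P) with hR
  have hR0 : 0 ≤ R := Real.sqrt_nonneg _
  have hRsq : R ^ 2 = N * P := Real.sq_sqrt hNP0
  have hp0 : u0 ≤ R := by
    have h1 := key u _ _ _ hU f i00 (by simpa [pow_two] using i00) (iu2 f i00)
    have e1 : (∫ y, u y * |f y * f y|) = u0 := by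
      rw [hu0]; congr 1; funext y; rw [abs_mul_self, pow_two]
    have e2 : (∫ y, u y ^ 2 * f y ^ 2) = v0 := by
      rw [hv0]; congr 1; funext y; rw [huv]
    rw [e1, e2] at h1
    apply le_of_sq _ _ hR0
    rw [hRsq]
    exact h1.trans (mul_le_mul_of_nonneg_left hsY hN0)
  have hp1 : (∫ y, u y * |f y * f1 y|) ^ 2 ≤ 2 * R ^ 2 := by
    have h1 := key u _ _ _ hU f1 i11 i01 (iu2 f1 i11)
    have e2 : (∫ y, u y ^ 2 * f1 y ^ 2) = v1 := by
      rw [hv1]; congr 1; funext y; rw [huv]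
    rw [e2] at h1
    rw [hRsq]
    have := mul_le_mul_of_nonneg_left hsX hN0
    linarith
  have hp1' : (∫ y, u y * |f y * f1 y|) ≤ 3 / 2 * R := by
    apply le_of_sq _ _ (by positivity)
    have : (3 / 2 * R) ^ 2 = 9 / 4 * R ^ 2 := by ring
    rw [this]
    have := sq_nonneg R
    linarith
  have hsup : ∀ y, u y * f y ^ 2 ≤ 4 * R := by
    intro y
    have h1 := supw hU (by norm_num) hd i00 i01 y
    refine h1.trans ?_
    have e : (∫ x, u x * f x ^ 2) = u0 := rfl
    rw [e]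
    have h5 : (1 : ℝ) / 2 / 2 * u0 ≤ R / 4 := by linarith
    linarith
  have hsup2 : ∀ y, (u y * f y ^ 2) ^ 2 ≤ 16 * (N * P) := by
    intro y
    have h0 : 0 ≤ u y * f y ^ 2 := mul_nonneg (hU.p y).le (sq_nonneg _)
    calc (u y * f y ^ 2) ^ 2 ≤ (4 * R) ^ 2 := pow_le_pow_left₀ h0 (hsup y) 2
      _ = 16 * (N * P) := by rw [mul_pow, hRsq]; norm_num
  have hsup4 : ∀ y, (u y * f y ^ 2) ^ 4 ≤ 256 * (N ^ 3 * A) := by
    intro y
    have h0 : 0 ≤ (u y * f y ^ 2) ^ 2 := sq_nonneg _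
    calc (u y * f y ^ 2) ^ 4 = ((u y * f y ^ 2) ^ 2) ^ 2 := by ring
      _ ≤ (16 * (N * P)) ^ 2 := pow_le_pow_left₀ h0 (hsup2 y) 2
      _ = 256 * (N ^ 2 * P ^ 2) := by ring
      _ = 256 * (N ^ 3 * A) := by rw [hPsq]; ring
  refine ⟨hd_, ?_, ?_, ?_⟩
  · -- (c)
    set E := √(N * D) with hE
    have hE0 : 0 ≤ E := Real.sqrt_nonneg _
    have hEsq : E ^ 2 = N * D := Real.sq_sqrt (mul_nonneg hN0 hD0)
    have hq0 : v0 ^ 2 ≤ N * w0 := by
      have h1 := key v _ _ _ hV f i00 (by simpa [pow_two] using i00) (iv2 f i00)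
      have e1 : (∫ y, v y * |f y * f y|) = v0 := by
        rw [hv0]; congr 1; funext y; rw [abs_mul_self, pow_two]
      have e2 : (∫ y, v y ^ 2 * f y ^ 2) = w0 := by
        rw [hw0]; congr 1; funext y; rw [hvw]
      rw [e1, e2] at h1
      exact h1
    have hq1 : (∫ y, v y * |f y * f1 y|) ^ 2 ≤ N * w1 := by
      have h1 := key v _ _ _ hV f1 i11 i01 (iv2 f1 i11)
      have e2 : (∫ y, v y ^ 2 * f1 y ^ 2) = w1 := by
        rw [hw1]; congr 1; funext y; rw [hvw]
      rw [e2] at h1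
      exact h1
    have hsupc : ∀ y, (v y * f y ^ 2) ^ 2 ≤ 8 * (N * D) := by
      intro y
      have h1 := supw hV (by norm_num) hd i00 i01 y
      have e : (∫ x, v x * f x ^ 2) = v0 := rfl
      rw [e] at h1
      have h0 : 0 ≤ v y * f y ^ 2 := mul_nonneg (hV.p y).le (sq_nonneg _)
      have h5 := pow_le_pow_left₀ h0 h1 2
      refine h5.trans ?_
      rw [hDe]
      set J := ∫ x, v x * |f x * f1 x| with hJ
      nlinarith [sq_nonneg (2 * v0 - J / 2), sq_nonneg J, sq_nonneg v0]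
    have h6 : ∀ y, w y * f y ^ 6 ≤ 8 * (N * D) * f y ^ 2 := by
      intro y
      have e : w y * f y ^ 6 = (v y * f y ^ 2) ^ 2 * f y ^ 2 := by
        rw [← hvw y]; ring
      rw [e]
      exact mul_le_mul_of_nonneg_right (hsupc y) (sq_nonneg _)
    calc (∫ y, w y * f y ^ 6) ≤ ∫ y, 8 * (N * D) * f y ^ 2 := by
          refine integral_mono_of_nonneg (Filter.Eventually.of_forall fun y => ?_)
            (i00.const_mul _) (Filter.Eventually.of_forall h6)
          have := (hwp y).le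
          simp only [Pi.zero_apply]
          positivity
      _ = 8 * N ^ 2 * D := by rw [integral_const_mul, ← hN]; ring
  · -- (b)
    have h6 : ∀ y, w y * (f y ^ 4 * f1 y ^ 2) ≤ 16 * (N * P) * (v y * f1 y ^ 2) := by
      intro y
      have e : w y * (f y ^ 4 * f1 y ^ 2) = (u y * f y ^ 2) ^ 2 * (v y * f1 y ^ 2) := by
        rw [← hvw y, ← huv y]; ring
      rw [e]
      exact mul_le_mul_of_nonneg_right (hsup2 y) (mul_nonneg (hV.p y).le (sq_nonneg _))
    calc (∫ y, w y * (f y ^ 4 * f1 y ^ 2)) ≤ ∫ y, 16 * (N * P) * (v y * f1 y ^ 2) := by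
          refine integral_mono_of_nonneg (Filter.Eventually.of_forall fun y => ?_)
            ((hV.int i11).const_mul _) (Filter.Eventually.of_forall h6)
          have := (hwp y).le
          simp only [Pi.zero_apply]
          positivity
      _ = 16 * (N * P) * v1 := by rw [integral_const_mul]
      _ ≤ 16 * (N * P) * (2 * P) := mul_le_mul_of_nonneg_left hsX (by positivity)
      _ = 32 * (N * P ^ 2) := by ring
      _ = 32 * N ^ 2 * A := by rw [hPsq]; ring
  · -- (a)
    have h6 : ∀ y, w y * f y ^ 10 ≤ 256 * (N ^ 3 * A) * f y ^ 2 := by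
      intro y
      have e : w y * f y ^ 10 = (u y * f y ^ 2) ^ 4 * f y ^ 2 := by
        rw [← hvw y, ← huv y]; ring
      rw [e]
      exact mul_le_mul_of_nonneg_right (hsup4 y) (sq_nonneg _)
    calc (∫ y, w y * f y ^ 10) ≤ ∫ y, 256 * (N ^ 3 * A) * f y ^ 2 := by
          refine integral_mono_of_nonneg (Filter.Eventually.of_forall fun y => ?_)
            (i00.const_mul _) (Filter.Eventually.of_forall h6)
          have := (hwp y).le
          simp only [Pi.zero_apply]
          positivity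
      _ = 256 * N ^ 4 * A := by rw [integral_const_mul, ← hN]; ring

end Pool.Agent.Helper5.KV
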