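import Pool.Agent.Helper5.KV.F_LAW1

/-!
# Packet KV-F-LAWAB (MP_66be51_an): laws of the parameters `a, b`
-/

set_option autoImplicit false

namespace Pool.Agent.Helper5.KV

open Real MeasureTheory Pool.Agent.Helper41.KV Pool.Agent.Helper33.KV Pool.Agent.Helper61.KV

lemma key {α K C : ℝ} {n : ℕ} {Z Y V2 : ℝ → ℝ}
    (hα : 0 < α) (hα1 : α < 1) (hK : 64 ≤ K)
    (hCurve : S_CURVE) (hWTL : S_WTL) (hWEAKE : S_WEAKE)
    (hZ : IsZ1 Z) (hY : IsY1 Z Y) (hV : IsV2 α Z V2)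
    {Cs : ℝ} (hSrc : ∀ (N0 : ℕ) (T : ℝ) (W Wt r r' : ℝ → ℝ → ℝ), 0 < T → rho α T ≤ 1 →
      Bg α N0 K T C n Z V2 W Wt r r' → ∀ t ∈ Set.Ioc 0 T, ∀ y,
      |srcA α Z V2 (inn α W t) (rho α t) y| ≤ Cs * rho α t ^ 2 * Real.exp (-|y| / 2) ∧
      |srcB α Z V2 (inn α W t) (rho α t) y| ≤ Cs * rho α t ^ 3 * Real.exp (-|y| / 2))
    (hEtau : ∀ ρ, IsE (tauA α Z ρ) ∧ IsE (tauB α Z V2 ρ))
    {Ct ρ1 : ℝ} (hCt : 0 ≤ Ct)
    (htau : ∀ ρ, 0 ≤ ρ → ρ ≤ ρ1 → ∀ y, |tauA α Z ρ y| ≤ Ct * Real.exp (-(3 / 4) * |y|) ∧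
      |tauB α Z V2 ρ y| ≤ Ct * Real.exp (-(3 / 4) * |y|))
    {f : ℝ → ℝ} (hf : IsE f) :
    ∃ Cf : ℝ, 0 ≤ Cf ∧ ∀ (N0 : ℕ) (T : ℝ) (W Wt r r' : ℝ → ℝ → ℝ), 0 < T → rho α T ≤ 1 →
      Bg α N0 K T C n Z V2 W Wt r r' →
      ∀ (u : ℝ → ℝ → ℝ) (t1 t2 : ℝ), 0 < t1 → t1 < t2 → t2 ≤ T →
      rho α t2 ≤ ρ1 → SmoothSol u t1 t2 → ∀ a b a' b' : ℝ → ℝ,
      (∀ t ∈ Set.Icc t1 t2, HasDerivWithinAt a (a' t) (Set.Icc t1 t2) t ∧
        HasDerivWithinAt b (b' t) (Set.Icc t1 t2) t ∧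
        (∫ y, etaI α Z V2 u W a b t y * f y) = 0) →
      ∀ t ∈ Set.Icc t1 t2, |a t| ≤ 1 → |b t| ≤ 1 → hsq α K (etaI α Z V2 u W a b) t ≤ 1 →
        |AA α a b a' t * (∫ y, tauA α Z (rho α t) y * f y)
          + BB α a b b' t * (∫ y, tauB α Z V2 (rho α t) y * f y)| ≤
          Cf * (Real.sqrt (hsq α K (etaI α Z V2 u W a b) t)
          + rho α t ^ 2 * |a t| + rho α t ^ 3 * |b t| + a t ^ 2 + b t ^ 2 + rho α t ^ N0) := by
  obtain ⟨hC1, hC2, -⟩ := hCurve α hα hα1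
  obtain ⟨F, hF0, hF⟩ := unifE hf 3 (3 / 4) (by norm_num)
  set M := 2 * |C| with hM
  have hM0 : 0 ≤ M := by positivity
  set J2 := ∫ y : ℝ, exp (-|y| / 2) with hJ2
  set J34 := ∫ y : ℝ, exp (-(3 / 4) * |y|) with hJ34
  have hJ20 : 0 ≤ J2 := integral_nonneg fun y => (exp_pos _).le
  have hJ340 : 0 ≤ J34 := integral_nonneg fun y => (exp_pos _).le
  set G := F + F + 5 * M ^ 4 * F + 3 * (F / 2 + 4 * F) with hG
  have hG0 : 0 ≤ G := by positivity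
  set Cq := 10 * M ^ 3 + 10 * M ^ 2 + 5 * M + 1 with hCq
  have hCq0 : 0 ≤ Cq := by positivity
  set q1 := Cq * F * 260 with hq1
  set q2 := Cq * F * ((2 * Ct ^ 2 + 128 * Ct ^ 5) * 2 * J34) with hq2
  set q3 := |C| / 2 + F ^ 2 * J2 with hq3
  set q4 := |Cs| * F * J2 with hq4
  have hq10 : 0 ≤ q1 := by positivity
  have hq20 : 0 ≤ q2 := by positivity
  have hq30 : 0 ≤ q3 := by positivity
  have hq40 : 0 ≤ q4 := by positivity
  refine ⟨4 * G + q1 + q2 + q3 + q4, by positivity, ?_⟩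
  intro N0 T W Wt r r' hT hρT hB u t1 t2 ht1 ht12 ht2T hρ2 hu a b a' b' hab t ht ha1 hb1 hH1
  replace hSrc := hSrc N0 T W Wt r r' hT hρT hB
  -- basic facts at `t`
  have ht0 : 0 < t := ht1.trans_le ht.1
  have htT : t ≤ T := ht.2.trans ht2T
  have htm : t ∈ Set.Ioc 0 T := ⟨ht0, htT⟩
  obtain ⟨hsig, hlam, hrho, -⟩ := hC1 t ht0
  set ρ := rho α t with hρ
  have hρ1 : ρ ≤ 1 := ((hC2 t T ht0 htT).2.2).trans hρT
  have hρρ1 : ρ ≤ ρ1 := ((hC2 t t2 ht0 ht.2).2.2).trans hρ2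
  have hwtl0 := hWTL K ρ hK hrho hρ1
  -- the functions
  set v : ℝ → ℝ := inn α W t with hv
  set U : ℝ → ℝ := inn α u t with hU
  set e : ℝ → ℝ := etaI α Z V2 u W a b t with he
  set H := hsq α K (etaI α Z V2 u W a b) t with hH
  obtain ⟨hW1, -, -⟩ := hB.hinf t t ht0 le_rfl htT
  have hmem : t ∈ Set.Icc t t := ⟨le_rfl, le_rfl⟩
  have sW : ContDiff ℝ (⊤ : ℕ∞) (W t) := hW1.smooth t hmem
  have su : ContDiff ℝ (⊤ : ℕ∞) (u t) := hu.hinf.smooth t ht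
  have mW0 : MemLp (W t) 2 := by simpa using hW1.memLp 0 t hmem
  have mW1 : MemLp (deriv (W t)) 2 := by
    have := hW1.memLp 1 t hmem
    rwa [iteratedDeriv_one] at this
  have mu0 : MemLp (u t) 2 := by simpa using hu.hinf.memLp 0 t ht
  have mu1 : MemLp (deriv (u t)) 2 := by
    have := hu.hinf.memLp 1 t ht
    rwa [iteratedDeriv_one] at this
  obtain ⟨v1, v2, v3⟩ := inn_facts (g := W) hlam (sW.of_le (by exact_mod_cast le_top)) mW0 mW1
  obtain ⟨u1, u2, u3⟩ := inn_facts (g := u) hlam (su.of_le (by exact_mod_cast le_top)) mu0 mu1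
  have hEA := (hEtau ρ).1
  have hEB := (hEtau ρ).2
  have ee : e = fun y => U y - v y - a t * tauA α Z ρ y - b t * tauB α Z V2 ρ y := rfl
  have cA : ContDiff ℝ 1 (tauA α Z ρ) := hEA.1.of_le (by exact_mod_cast le_top)
  have cB : ContDiff ℝ 1 (tauB α Z V2 ρ) := hEB.1.of_le (by exact_mod_cast le_top)
  have e1 : ContDiff ℝ 1 e := by
    rw [ee]
    exact ((u1.sub v1).sub (contDiff_const.mul cA)).sub (contDiff_const.mul cB)
  have e2 : MemLp e 2 := by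
    rw [ee]
    exact ((u2.sub v2).sub ((memLp_E hEA).const_mul _)).sub ((memLp_E hEB).const_mul _)
  have e3 : MemLp (deriv e) 2 := by
    have hd : deriv e = fun y => deriv U y - deriv v y - a t * deriv (tauA α Z ρ) y
        - b t * deriv (tauB α Z V2 ρ) y := by
      funext y
      have d1 := ((u1.differentiable (by norm_num)) y).hasDerivAt
      have d2 := ((v1.differentiable (by norm_num)) y).hasDerivAt
      have d3 := ((cA.differentiable (by norm_num)) y).hasDerivAt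
      have d4 := ((cB.differentiable (by norm_num)) y).hasDerivAt
      rw [ee]
      exact (((d1.fun_sub d2).fun_sub (d3.const_mul (a t))).fun_sub (d4.const_mul (b t))).deriv
    rw [hd]
    exact ((u3.sub v3).sub ((memLp_E (derE hEA)).const_mul _)).sub
      ((memLp_E (derE hEB)).const_mul _)
  obtain ⟨w1, w2, w3, w4, w5⟩ := hwtl0 e e1 e2 e3
  have hHe : H = ∫ y, wt K ρ y * (deriv e y ^ 2 + e y ^ 2) := rfl
  rw [← hHe] at w2 w3 w4 w5
  have hH0 : 0 ≤ H := by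
    rw [hHe]
    exact integral_nonneg fun y => mul_nonneg (wt_pos hrho y).le (by positivity)
  have hHs : H ≤ √H := by
    have h1 := Real.sqrt_nonneg H
    have h2 : √H ≤ 1 := Real.sqrt_le_one.2 hH1
    have h3 := Real.mul_self_sqrt hH0
    nlinarith
  have hH52 : H ^ ((5 : ℝ) / 2) ≤ H := by
    have := Real.rpow_le_rpow_of_exponent_ge' hH0 hH1 (by norm_num : (0 : ℝ) ≤ 1)
      (by norm_num : (1 : ℝ) ≤ 5 / 2)
    rwa [Real.rpow_one] at this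
  -- bound of `v`
  have hvM : ∀ y, |v y| ≤ M := by
    intro y
    have h1 := hB.b0 t htm y
    have h2 : exp (-|y| / 2) ≤ 1 := by
      apply exp_le_one_iff.2
      have := abs_nonneg y
      linarith
    have h3 : ρ ^ ((1 : ℝ) / 2) ≤ 1 := Real.rpow_le_one hrho.le hρ1 (by norm_num)
    have h4 : 0 ≤ ρ ^ ((1 : ℝ) / 2) := Real.rpow_nonneg hrho.le _
    have h5 := exp_pos (-|y| / 2)
    refine h1.trans ?_
    calc C * (exp (-|y| / 2) + ρ ^ ((1 : ℝ) / 2)) ≤ |C| * (exp (-|y| / 2) + ρ ^ ((1 : ℝ) / 2)) :=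
          mul_le_mul_of_nonneg_right (le_abs_self C) (by positivity)
      _ ≤ |C| * (1 + 1) := mul_le_mul_of_nonneg_left (add_le_add h2 h3) (abs_nonneg _)
      _ = M := by rw [hM]; ring
  -- exponential comparisons
  have hx34 : ∀ y : ℝ, exp (-(3 / 4 * |y|)) ≤ exp (-|y| / 2) := by
    intro y
    apply exp_le_exp.2
    have := abs_nonneg y
    linarith
  have hexp34 : ∀ y : ℝ, exp (-(3 / 4 * |y|)) = exp (-(3 / 4) * |y|) := by
    intro y; congr 1; ring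
  have hf0 : ∀ y, |f y| ≤ F * exp (-(3 / 4 * |y|)) := by
    intro y
    have := hF 0 (by norm_num) y
    rwa [iteratedDeriv_zero] at this
  have hf1 : ∀ y, |deriv f y| ≤ F * exp (-(3 / 4 * |y|)) := by
    intro y
    have := hF 1 (by norm_num) y
    rwa [iteratedDeriv_one] at this
  have hf3 : ∀ y, |deriv (deriv (deriv f)) y| ≤ F * exp (-(3 / 4 * |y|)) := by
    intro y
    have := hF 3 (by norm_num) y
    rwa [iteratedDeriv_succ, iteratedDeriv_succ, iteratedDeriv_one] at this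
  -- the identity
  have hder := hWEAKE α N0 K T C n Z Y V2 W Wt r r' hα hα1 hT hZ hY hV hB u t1 t2 ht1 ht12 ht2T hu
    a b a' b' (fun s hs => ⟨(hab s hs).1, (hab s hs).2.1⟩) f hf t ht
  have hzero : HasDerivWithinAt (fun τ => ∫ y, etaI α Z V2 u W a b τ y * f y) 0
      (Set.Icc t1 t2) t :=
    (hasDerivWithinAt_const t (Set.Icc t1 t2) (0 : ℝ)).congr (fun s hs => (hab s hs).2.2)
      (hab t ht).2.2
  have huniq := (uniqueDiffOn_Icc ht12 t ht).eq_deriv _ hder hzero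
  have hl3 : (1 / lam α t ^ 3) ≠ 0 := by positivity
  have hid := (mul_eq_zero.1 huniq).resolve_left hl3
  set I1 := ∫ y, etaI α Z V2 u W a b t y * (deriv (deriv (deriv f)) y - deriv f y
              + 5 * inn α W t y ^ 4 * deriv f y - (2 * α + 1) * rho α t * Lam f y) with hI1
  set I2 := ∫ y, (inn α u t y ^ 5 - inn α W t y ^ 5
              - 5 * inn α W t y ^ 4 * (inn α u t y - inn α W t y)) * deriv f y with hI2
  set I3 := ∫ y, resid α W Wt t y * f y with hI3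
  set I4 := ∫ y, srcA α Z V2 (inn α W t) (rho α t) y * f y with hI4
  set I5 := ∫ y, srcB α Z V2 (inn α W t) (rho α t) y * f y with hI5
  have hsum : AA α a b a' t * (∫ y, tauA α Z ρ y * f y)
      + BB α a b b' t * (∫ y, tauB α Z V2 ρ y * f y) = I1 + I2 - I3 - a t * I4 - b t * I5 := by
    linarith
  -- linear term
  have B1 : |I1| ≤ 4 * G * √H :=
    lin_term hα hα1 hrho hρ1 hF0 hM0 hG e2 w2 hvM hf0 hf1 hf3
  -- quadratic term
  have B2 : |I2| ≤ q1 * √H + q2 * (a t ^ 2 + b t ^ 2) := by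
    have hs0 : 0 ≤ |a t| + |b t| := by positivity
    have hs2 : |a t| + |b t| ≤ 2 := by linarith
    have hss : (|a t| + |b t|) ^ 2 ≤ 2 * (a t ^ 2 + b t ^ 2) := by
      rw [← sq_abs (a t), ← sq_abs (b t)]
      nlinarith [sq_nonneg (|a t| - |b t|)]
    refine quad_term (z := fun y => a t * tauA α Z ρ y + b t * tauB α Z V2 ρ y) hF0 hM0 hCt hs0 hs2
      hss hCq hJ34 hH0 hHs hH52 e1.continuous e2 w3 w4 w5 hvM ?_ ?_ hf1
    · intro y
      rw [ee]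
      ring
    · intro y
      obtain ⟨tA, tB⟩ := htau ρ hrho.le hρρ1 y
      calc _ ≤ |a t * tauA α Z ρ y| + |b t * tauB α Z V2 ρ y| := abs_add_le _ _
        _ ≤ |a t| * (Ct * exp (-(3 / 4) * |y|)) + |b t| * (Ct * exp (-(3 / 4) * |y|)) := by
            rw [abs_mul, abs_mul]
            exact add_le_add (mul_le_mul_of_nonneg_left tA (abs_nonneg _))
              (mul_le_mul_of_nonneg_left tB (abs_nonneg _))
        _ = _ := by ring
  -- residual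
  have B3 : |I3| ≤ q3 * ρ ^ N0 := by
    obtain ⟨rc, rc', ri, ri'⟩ := resid_facts hB htm hlam
    exact res_term hrho hF0 hJ2 rc rc' ri ri' (hB.res t htm) w1 hf0
  -- sources
  have hfF : ∀ y, |f y| ≤ F := by
    intro y
    refine (hf0 y).trans ?_
    have : exp (-(3 / 4 * |y|)) ≤ 1 := by
      apply exp_le_one_iff.2
      have := abs_nonneg y
      linarith
    nlinarith
  have B4 : |I4| ≤ q4 * ρ ^ 2 :=
    src_term 2 hrho hF0 hJ2 hfF (fun y => (hSrc t htm y).1)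
  have B5 : |I5| ≤ q4 * ρ ^ 3 :=
    src_term 3 hrho hF0 hJ2 hfF (fun y => (hSrc t htm y).2)
  -- conclusion
  rw [hsum]
  have A4 : |a t * I4| ≤ q4 * (ρ ^ 2 * |a t|) := by
    rw [abs_mul]
    have := mul_le_mul_of_nonneg_left B4 (abs_nonneg (a t))
    linarith
  have A5 : |b t * I5| ≤ q4 * (ρ ^ 3 * |b t|) := by
    rw [abs_mul]
    have := mul_le_mul_of_nonneg_left B5 (abs_nonneg (b t))
    linarith
  have hS0 := Real.sqrt_nonneg H
  have p1 : 0 ≤ ρ ^ 2 * |a t| := by positivity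
  have p2 : 0 ≤ ρ ^ 3 * |b t| := by positivity
  have p3 : 0 ≤ a t ^ 2 + b t ^ 2 := by positivity
  have p4 : 0 ≤ ρ ^ N0 := by positivity
  set S := √H + ρ ^ 2 * |a t| + ρ ^ 3 * |b t| + a t ^ 2 + b t ^ 2 + ρ ^ N0 with hS
  have hS1 : √H ≤ S := by rw [hS]; linarith
  have hS2 : ρ ^ 2 * |a t| + ρ ^ 3 * |b t| ≤ S := by rw [hS]; linarith
  have hS3 : a t ^ 2 + b t ^ 2 ≤ S := by rw [hS]; linarith
  have hS4 : ρ ^ N0 ≤ S := by rw [hS]; linarith
  calc |I1 + I2 - I3 - a t * I4 - b t * I5|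
      ≤ |I1| + |I2| + |I3| + |a t * I4| + |b t * I5| := by
        refine (abs_sub _ _).trans (add_le_add_left ((abs_sub _ _).trans
          (add_le_add_left ((abs_sub _ _).trans (add_le_add_left (abs_add_le _ _) _)) _)) _)
    _ ≤ 4 * G * √H + (q1 * √H + q2 * (a t ^ 2 + b t ^ 2)) + q3 * ρ ^ N0
        + q4 * (ρ ^ 2 * |a t|) + q4 * (ρ ^ 3 * |b t|) := by linarith
    _ ≤ 4 * G * S + (q1 * S + q2 * S) + q3 * S + q4 * S := by
        have r1 := mul_le_mul_of_nonneg_left hS1 (by positivity : 0 ≤ 4 * G)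
        have r2 := mul_le_mul_of_nonneg_left hS1 hq10
        have r3 := mul_le_mul_of_nonneg_left hS3 hq20
        have r4 := mul_le_mul_of_nonneg_left hS4 hq30
        have r5 := mul_le_mul_of_nonneg_left hS2 hq40
        linarith
    _ = (4 * G + q1 + q2 + q3 + q4) * S := by ring

lemma Q_isE (hQ : S_QF) : IsE Q := by
  refine ⟨hQ.1, fun k μ hμ => ?_⟩
  obtain ⟨C, hC⟩ := hQ.2.2.2.2.2.2.1 k
  refine ⟨|C|, fun y => (hC y).trans ?_⟩
  have h1 : exp (-|y|) ≤ exp (-(μ * |y|)) := by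
    apply exp_le_exp.2
    have := abs_nonneg y
    nlinarith
  calc C * exp (-|y|) ≤ |C| * exp (-|y|) := mul_le_mul_of_nonneg_right (le_abs_self C) (exp_pos _).le
    _ ≤ |C| * exp (-(μ * |y|)) := mul_le_mul_of_nonneg_left h1 (abs_nonneg _)

theorem thm_LAWAB (hQ : S_QF) (hC : S_CURVE) (hN : S_IDN) (hTB : S_TAUB) (hS : S_SRC)
    (hL : S_WTL) (hW : S_WEAKE) : S_LAWAB := by
  intro α K C n Z Y V2 hα hα1 hK hZ hY hV
  obtain ⟨hEs, Ct, ρ1, hρ10, hρ11, htau⟩ := hTB α Z Y V2 hZ hY hV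
  obtain ⟨Cs, hSrc⟩ := hS α K C n Z Y V2 hα hα1 hZ hY hV
  obtain ⟨-, -, -, -, -, -, -, -, hI4, hI2, -⟩ := hN α Z Y V2 hZ hY hV
  have hCt0 : 0 ≤ Ct := by
    have h1 := ((htau 0 le_rfl hρ10.le).1 0 (by norm_num) 0).1
    have h2 := (abs_nonneg _).trans h1
    have h3 := exp_pos (-(3 / 4) * |(0 : ℝ)|)
    exact nonneg_of_mul_nonneg_left h2 h3
  have htau' : ∀ ρ, 0 ≤ ρ → ρ ≤ ρ1 → ∀ y, |tauA α Z ρ y| ≤ Ct * Real.exp (-(3 / 4) * |y|) ∧
      |tauB α Z V2 ρ y| ≤ Ct * Real.exp (-(3 / 4) * |y|) := by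
    intro ρ h0 h1 y
    have h2 := (htau ρ h0 h1).1 0 (by norm_num) y
    simp only [iteratedDeriv_zero] at h2
    exact ⟨h2.1, h2.2.1⟩
  have hEQ := Q_isE hQ
  have hEQ3 : IsE (fun y => Q y ^ 3) := by
    have h := mulPE (E_P hEQ) (mulPE (E_P hEQ) hEQ)
    have e : (fun y => Q y ^ 3) = fun y => Q y * (Q y * Q y) := by funext y; ring
    rw [e]; exact h
  have hEQ' : IsE (deriv Q) := derE hEQ
  have hSrc' : ∀ (N0 : ℕ) (T : ℝ) (W Wt r r' : ℝ → ℝ → ℝ), 0 < T → rho α T ≤ 1 →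
      Bg α N0 K T C n Z V2 W Wt r r' → ∀ t ∈ Set.Ioc 0 T, ∀ y,
      |srcA α Z V2 (inn α W t) (rho α t) y| ≤ Cs * rho α t ^ 2 * Real.exp (-|y| / 2) ∧
      |srcB α Z V2 (inn α W t) (rho α t) y| ≤ Cs * rho α t ^ 3 * Real.exp (-|y| / 2) :=
    fun N0 T W Wt r r' hT hρT hB t ht y => ⟨(hSrc N0 T W Wt r r' hT hρT hB t ht y).1,
      (hSrc N0 T W Wt r r' hT hρT hB t ht y).2.2.1⟩
  have hEtau : ∀ ρ, IsE (tauA α Z ρ) ∧ IsE (tauB α Z V2 ρ) := fun ρ => ⟨(hEs ρ).1, (hEs ρ).2.1⟩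
  obtain ⟨C1, hC10, hk1⟩ := key hα hα1 hK hC hL hW hZ hY hV hSrc' hEtau hCt0 htau' hEQ3
  obtain ⟨C2, hC20, hk2⟩ := key hα hα1 hK hC hL hW hZ hY hV hSrc' hEtau hCt0 htau' hEQ'
  set c0 := min ((∫ y, Q y ^ 4) / 4) (∫ y, deriv Q y ^ 2) with hc0
  have hc0pos : 0 < c0 := lt_min (by linarith) hI2
  have hc1 : c0 ≤ (∫ y, Q y ^ 4) / 4 := min_le_left _ _
  have hc2 : c0 ≤ ∫ y, deriv Q y ^ 2 := min_le_right _ _
  refine ⟨min ρ1 (c0 / (4 * (Ct + 1))), 2 / c0 * (C1 + C2), lt_min hρ10 (by positivity), ?_⟩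
  intro N0 T W Wt r r' hT hρT hB u t1 t2 ht1 ht12 ht2T hρ2 hu a b a' b' hab t ht ha1 hb1 hH1
  have ht0 : 0 < t := ht1.trans_le ht.1
  obtain ⟨hc1', hc2', -⟩ := hC α hα hα1
  have hrho : 0 < rho α t := (hc1' t ht0).2.2.1
  have hρt : rho α t ≤ rho α t2 := (hc2' t t2 ht0 ht.2).2.2
  have hρa : rho α t ≤ ρ1 := hρt.trans (hρ2.trans (min_le_left _ _))
  have hρb : rho α t ≤ c0 / (4 * (Ct + 1)) := hρt.trans (hρ2.trans (min_le_right _ _))
  have hsmall : Ct * rho α t ≤ c0 / 4 := by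
    rw [le_div_iff₀ (by positivity)] at hρb
    nlinarith
  have r1 := hk1 N0 T W Wt r r' hT hρT hB u t1 t2 ht1 ht12 ht2T (hρ2.trans (min_le_left _ _)) hu a b a' b'
    (fun s hs => ⟨(hab s hs).1, (hab s hs).2.1, (hab s hs).2.2.1⟩) t ht ha1 hb1 hH1
  have r2 := hk2 N0 T W Wt r r' hT hρT hB u t1 t2 ht1 ht12 ht2T (hρ2.trans (min_le_left _ _)) hu a b a' b'
    (fun s hs => ⟨(hab s hs).1, (hab s hs).2.1, (hab s hs).2.2.2⟩) t ht ha1 hb1 hH1
  obtain ⟨-, -, -, m11, m12, m21, m22⟩ := htau (rho α t) hrho.le hρa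
  set A := AA α a b a' t with hA
  set B := BB α a b b' t with hB'
  set M11 := ∫ y, tauA α Z (rho α t) y * Q y ^ 3 with hM11
  set M12 := ∫ y, tauB α Z V2 (rho α t) y * Q y ^ 3 with hM12
  set M21 := ∫ y, tauA α Z (rho α t) y * deriv Q y with hM21
  set M22 := ∫ y, tauB α Z V2 (rho α t) y * deriv Q y with hM22
  set S := √(hsq α K (etaI α Z V2 u W a b) t) + rho α t ^ 2 * |a t| + rho α t ^ 3 * |b t|
    + a t ^ 2 + b t ^ 2 + rho α t ^ N0 with hSdef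
  have k11 : 3 / 4 * c0 ≤ M11 := by
    have := (abs_le.1 m11).1
    linarith
  have k22 : 3 / 4 * c0 ≤ M22 := by
    have := (abs_le.1 m22).1
    linarith
  have k12 : |M12| ≤ c0 / 4 := m12.trans hsmall
  have k21 : |M21| ≤ c0 / 4 := m21.trans hsmall
  have hA0 := abs_nonneg A
  have hB0 := abs_nonneg B
  have e1 : 3 / 4 * c0 * |A| ≤ C1 * S + c0 / 4 * |B| := by
    have h1 : |A * M11| ≤ |A * M11 + B * M12| + |B * M12| := by
      have := abs_sub (A * M11 + B * M12) (B * M12)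
      simpa using this
    rw [abs_mul A, abs_mul B, abs_of_nonneg (by linarith : 0 ≤ M11)] at h1
    have h2 : |A| * (3 / 4 * c0) ≤ |A| * M11 := mul_le_mul_of_nonneg_left k11 hA0
    have h3 : |B| * |M12| ≤ |B| * (c0 / 4) := mul_le_mul_of_nonneg_left k12 hB0
    linarith
  have e2 : 3 / 4 * c0 * |B| ≤ C2 * S + c0 / 4 * |A| := by
    have h1 : |B * M22| ≤ |A * M21 + B * M22| + |A * M21| := by
      have := abs_sub (A * M21 + B * M22) (A * M21)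
      simpa using this
    rw [abs_mul A, abs_mul B, abs_of_nonneg (by linarith : 0 ≤ M22)] at h1
    have h2 : |B| * (3 / 4 * c0) ≤ |B| * M22 := mul_le_mul_of_nonneg_left k22 hB0
    have h3 : |A| * |M21| ≤ |A| * (c0 / 4) := mul_le_mul_of_nonneg_left k21 hA0
    linarith
  have e3 : c0 / 2 * (|A| + |B|) ≤ (C1 + C2) * S := by linarith
  calc |A| + |B| = 2 / c0 * (c0 / 2 * (|A| + |B|)) := by field_simp
    _ ≤ 2 / c0 * ((C1 + C2) * S) := mul_le_mul_of_nonneg_left e3 (by positivity)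
    _ = 2 / c0 * (C1 + C2) * S := by ring

end Pool.Agent.Helper5.KV
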