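import Pool.Agent.Helper33.KV.GoalsF
import Pool.Agent.Helper61.KV.ECL1
import Pool.Agent.Helper61.KV.QF

/-!
# Auxiliary lemmas for packet KV-F-LAWAB (MP_66be51_an)
-/

set_option autoImplicit false

namespace Pool.Agent.Helper5.KV

open Real MeasureTheory Pool.Agent.Helper41.KV Pool.Agent.Helper33.KV Pool.Agent.Helper61.KV

/-- `exp (-(c|y|))` is integrable -/
lemma exp_int {c : ℝ} (hc : 0 < c) : Integrable (fun y : ℝ => exp (-(c * |y|))) := by
  set m := min 1 (c ^ 2 / 2) with hm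
  have hm0 : 0 < m := lt_min one_pos (by positivity)
  have hint : Integrable (fun x : ℝ => m⁻¹ * (1 + x ^ 2)⁻¹) :=
    integrable_inv_one_add_sq.const_mul _
  refine hint.mono' (by fun_prop) (Filter.Eventually.of_forall fun y => ?_)
  rw [Real.norm_eq_abs, abs_of_pos (exp_pos _), Real.exp_neg, ← mul_inv]
  apply inv_anti₀ (by positivity)
  have h4 := Real.quadratic_le_exp_of_nonneg (show 0 ≤ c * |y| by positivity)
  have h5 : y ^ 2 = |y| ^ 2 := (sq_abs y).symm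
  have h6 := abs_nonneg y
  have h7 : m * y ^ 2 ≤ c ^ 2 / 2 * y ^ 2 :=
    mul_le_mul_of_nonneg_right (min_le_right _ _) (sq_nonneg _)
  have h8 : m ≤ 1 := min_le_left _ _
  have h9 : (c * |y|) ^ 2 / 2 = c ^ 2 / 2 * y ^ 2 := by rw [mul_pow, sq_abs]; ring
  have h10 : 0 ≤ c * |y| := by positivity
  nlinarith

lemma exp_int2 : Integrable (fun y : ℝ => exp (-|y| / 2)) := by
  have h := exp_int (c := 1 / 2) (by norm_num)
  have e : (fun y : ℝ => exp (-|y| / 2)) = fun y : ℝ => exp (-(1 / 2 * |y|)) := by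
    funext y; congr 1; ring
  rw [e]; exact h

lemma exp_int34 : Integrable (fun y : ℝ => exp (-(3 / 4) * |y|)) := by
  have h := exp_int (c := 3 / 4) (by norm_num)
  have e : (fun y : ℝ => exp (-(3 / 4) * |y|)) = fun y : ℝ => exp (-(3 / 4 * |y|)) := by
    funext y; congr 1; ring
  rw [e]; exact h

/-- the quintic expansion -/
lemma quint {M v e : ℝ} (hM : 0 ≤ M) (hv : |v| ≤ M) :
    |(v + e) ^ 5 - v ^ 5 - 5 * v ^ 4 * e| ≤
      (10 * M ^ 3 + 10 * M ^ 2 + 5 * M + 1) * (e ^ 2 + |e| ^ 5) := by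
  set x := |e| with hx
  have hx0 : 0 ≤ x := abs_nonneg e
  have h2 : e ^ 2 = x ^ 2 := (sq_abs e).symm
  have h3 : x ^ 3 ≤ x ^ 2 + x ^ 5 := by
    rcases le_total x 1 with h | h
    · nlinarith [pow_nonneg hx0 2, pow_nonneg hx0 5, mul_nonneg (pow_nonneg hx0 2) (sub_nonneg.2 h)]
    · nlinarith [pow_nonneg hx0 2, pow_nonneg hx0 3,
        mul_nonneg (pow_nonneg hx0 3) (sub_nonneg.2 (one_le_pow₀ h (n := 2)))]
  have h4 : x ^ 4 ≤ x ^ 2 + x ^ 5 := by
    rcases le_total x 1 with h | h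
    · nlinarith [pow_nonneg hx0 2, pow_nonneg hx0 5,
        mul_nonneg (pow_nonneg hx0 2) (sub_nonneg.2 (pow_le_one₀ hx0 h (n := 2)))]
    · nlinarith [pow_nonneg hx0 2, pow_nonneg hx0 4, mul_nonneg (pow_nonneg hx0 4) (sub_nonneg.2 h)]
  have hv2 : |v| ^ 2 ≤ M ^ 2 := pow_le_pow_left₀ (abs_nonneg v) hv 2
  have hv3 : |v| ^ 3 ≤ M ^ 3 := pow_le_pow_left₀ (abs_nonneg v) hv 3
  have e1 : (v + e) ^ 5 - v ^ 5 - 5 * v ^ 4 * e
      = 10 * (v ^ 3 * e ^ 2) + 10 * (v ^ 2 * e ^ 3) + 5 * (v * e ^ 4) + e ^ 5 := by ring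
  have t1 : |10 * (v ^ 3 * e ^ 2)| ≤ 10 * (M ^ 3 * x ^ 2) := by
    rw [abs_mul, abs_mul, abs_pow, abs_pow, abs_of_pos (by norm_num : (0 : ℝ) < 10)]
    gcongr
  have t2 : |10 * (v ^ 2 * e ^ 3)| ≤ 10 * (M ^ 2 * x ^ 3) := by
    rw [abs_mul, abs_mul, abs_pow, abs_pow, abs_of_pos (by norm_num : (0 : ℝ) < 10)]
    gcongr
  have t3 : |5 * (v * e ^ 4)| ≤ 5 * (M * x ^ 4) := by
    rw [abs_mul, abs_mul, abs_pow, abs_of_pos (by norm_num : (0 : ℝ) < 5)]
    gcongr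
  have t4 : |e ^ 5| = x ^ 5 := abs_pow e 5
  rw [e1]
  calc |10 * (v ^ 3 * e ^ 2) + 10 * (v ^ 2 * e ^ 3) + 5 * (v * e ^ 4) + e ^ 5|
      ≤ |10 * (v ^ 3 * e ^ 2)| + |10 * (v ^ 2 * e ^ 3)| + |5 * (v * e ^ 4)| + |e ^ 5| := by
        refine (abs_add_le _ _).trans (add_le_add_left ((abs_add_le _ _).trans
          (add_le_add_left (abs_add_le _ _) _)) _)
    _ ≤ 10 * (M ^ 3 * x ^ 2) + 10 * (M ^ 2 * x ^ 3) + 5 * (M * x ^ 4) + x ^ 5 := by
        rw [t4]; linarith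
    _ ≤ 10 * (M ^ 3 * (x ^ 2 + x ^ 5)) + 10 * (M ^ 2 * (x ^ 2 + x ^ 5))
        + 5 * (M * (x ^ 2 + x ^ 5)) + (x ^ 2 + x ^ 5) := by
        have hx5 : 0 ≤ x ^ 5 := pow_nonneg hx0 5
        have hx2 : 0 ≤ x ^ 2 := pow_nonneg hx0 2
        gcongr <;> linarith
    _ = (10 * M ^ 3 + 10 * M ^ 2 + 5 * M + 1) * (e ^ 2 + x ^ 5) := by rw [h2]; ring

lemma sum_pow5 {x y : ℝ} : |x + y| ^ 5 ≤ 16 * (|x| ^ 5 + |y| ^ 5) := by
  have h1 : |x + y| ≤ |x| + |y| := abs_add_le x y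
  refine (pow_le_pow_left₀ (abs_nonneg _) h1 5).trans ?_
  have h2 := add_pow_le (abs_nonneg x) (abs_nonneg y) 5
  norm_num at h2
  exact h2

/-- affine substitution in `L²` -/
lemma memLp_affine {g : ℝ → ℝ} (hc : Continuous g) (hg : MemLp g 2) (σ : ℝ) {l : ℝ} (hl : 0 < l) :
    MemLp (fun y => g (σ + l * y)) 2 := by
  have hcont : Continuous (fun y => g (σ + l * y)) := by fun_prop
  rw [memLp_two_iff_integrable_sq hcont.aestronglyMeasurable]
  have h1 := hg.integrable_sq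
  have h2 : Integrable (fun y => g (σ + y) ^ 2) := h1.comp_add_left σ
  exact h2.comp_mul_left' hl.ne'

lemma deriv_inn {α t : ℝ} {g : ℝ → ℝ → ℝ} (hg : Differentiable ℝ (g t)) (y : ℝ) :
    HasDerivAt (inn α g t) (Real.sqrt (lam α t) * (lam α t * deriv (g t) (sig α t + lam α t * y))) y := by
  unfold inn
  have h1 : HasDerivAt (fun y => sig α t + lam α t * y) (lam α t * 1) y :=
    ((hasDerivAt_id y).const_mul (lam α t)).const_add (sig α t)
  have h2 : HasDerivAt (g t) (deriv (g t) (sig α t + lam α t * y)) (sig α t + lam α t * y) :=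
    (hg _).hasDerivAt
  have h3 := (h2.comp y h1).const_mul (Real.sqrt (lam α t))
  refine h3.congr_deriv ?_
  ring

lemma inn_facts {α t : ℝ} {g : ℝ → ℝ → ℝ} (hl : 0 < lam α t) (hg : ContDiff ℝ 1 (g t))
    (h0 : MemLp (g t) 2) (h1 : MemLp (deriv (g t)) 2) :
    ContDiff ℝ 1 (inn α g t) ∧ MemLp (inn α g t) 2 ∧ MemLp (deriv (inn α g t)) 2 := by
  refine ⟨?_, ?_, ?_⟩
  · unfold inn
    exact contDiff_const.mul (hg.comp (contDiff_const.add (contDiff_const.mul contDiff_id)))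
  · exact (memLp_affine hg.continuous h0 (sig α t) hl).const_mul _
  · have e : deriv (inn α g t) = fun y => Real.sqrt (lam α t) * (lam α t *
        deriv (g t) (sig α t + lam α t * y)) := by
      funext y
      exact (deriv_inn (hg.differentiable (by norm_num)) y).deriv
    rw [e]
    exact ((memLp_affine (hg.continuous_deriv (by norm_num)) h1 (sig α t) hl).const_mul _).const_mul _

lemma memLp_E {f : ℝ → ℝ} (hf : IsE f) : MemLp f 2 := by
  rw [memLp_two_iff_integrable_sq hf.1.continuous.aestronglyMeasurable]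
  have h := intE (mulPE (E_P hf) hf)
  have e : (fun y => f y ^ 2) = fun y => f y * f y := by funext y; ring
  rw [e]; exact h

lemma wt_pos {K ρ : ℝ} (hρ : 0 < ρ) (y : ℝ) : 0 < wt K ρ y := by
  unfold wt
  have := Real.exp_pos (-(y / K))
  positivity

lemma wt_cont {K ρ : ℝ} (hρ : 0 < ρ) : Continuous (wt K ρ) := by
  unfold wt
  apply Continuous.div continuous_const (by fun_prop)
  intro y
  have := Real.exp_pos (-(y / K))
  positivity

end Pool.Agent.Helper5.KV
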