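import Pool.Agent.Helper5.KV.F_AUX

/-!
# Packet KV-F-LAWAB (MP_66be51_an): the separate terms
-/

set_option autoImplicit false

namespace Pool.Agent.Helper5.KV

open Real MeasureTheory Pool.Agent.Helper41.KV Pool.Agent.Helper33.KV Pool.Agent.Helper61.KV

/-- the residual is `C^1` with square integrable value and derivative -/
lemma resid_facts {α K T C : ℝ} {N0 n : ℕ} {Z V2 : ℝ → ℝ} {W Wt r r' : ℝ → ℝ → ℝ}
    (hB : Bg α N0 K T C n Z V2 W Wt r r') {t : ℝ} (ht : t ∈ Set.Ioc 0 T) (hl : 0 < lam α t) :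
    Continuous (resid α W Wt t) ∧ Continuous (deriv (resid α W Wt t)) ∧
      Integrable (fun y => resid α W Wt t y ^ 2) ∧
      Integrable (fun y => deriv (resid α W Wt t) y ^ 2) := by
  obtain ⟨h1, h2, -⟩ := hB.hinf t t ht.1 le_rfl ht.2
  have hmem : t ∈ Set.Icc t t := ⟨le_rfl, le_rfl⟩
  have sW : ContDiff ℝ (⊤ : ℕ∞) (W t) := h1.smooth t hmem
  have sWt : ContDiff ℝ (⊤ : ℕ∞) (Wt t) := h2.smooth t hmem
  have cW : HasCompactSupport (W t) :=
    HasCompactSupport.intro isCompact_Icc (hB.supp t ht)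
  have it2 : iteratedDeriv 2 (W t) = deriv (deriv (W t)) := by
    rw [iteratedDeriv_succ, iteratedDeriv_one]
  have sd1 : ContDiff ℝ (⊤ : ℕ∞) (deriv (W t)) := (contDiff_infty_iff_deriv.1 sW).2
  have sd2 : ContDiff ℝ (⊤ : ℕ∞) (deriv (deriv (W t))) := (contDiff_infty_iff_deriv.1 sd1).2
  have eF : flux (W t) = fun x => deriv (deriv (W t)) x + W t x ^ 5 := by
    funext x; unfold flux; rw [it2]
  have sF : ContDiff ℝ (⊤ : ℕ∞) (flux (W t)) := by
    rw [eF]; exact sd2.add (sW.pow 5)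
  have cF : HasCompactSupport (flux (W t)) := by
    rw [eF]
    have c5 : HasCompactSupport (fun x => W t x ^ 5) := by
      have : (fun x => W t x ^ 5) = fun x => W t x * W t x ^ 4 := by funext x; ring
      rw [this]
      exact cW.mul_right
    exact (cW.deriv.deriv).add c5
  have sG1 : ContDiff ℝ (⊤ : ℕ∞) (deriv (flux (W t))) := (contDiff_infty_iff_deriv.1 sF).2
  have sG2 : ContDiff ℝ (⊤ : ℕ∞) (deriv (deriv (flux (W t)))) := (contDiff_infty_iff_deriv.1 sG1).2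
  have sWt1 : ContDiff ℝ (⊤ : ℕ∞) (deriv (Wt t)) := (contDiff_infty_iff_deriv.1 sWt).2
  set g : ℝ → ℝ → ℝ := fun t x => Wt t x + deriv (flux (W t)) x with hg
  have sg : ContDiff ℝ (⊤ : ℕ∞) (g t) := sWt.add sG1
  have m0 : MemLp (g t) 2 := by
    have h3 : MemLp (Wt t) 2 := by simpa using h2.memLp 0 t hmem
    have h4 : MemLp (deriv (flux (W t))) 2 :=
      sG1.continuous.memLp_of_hasCompactSupport cF.deriv
    exact h3.add h4
  have m1 : MemLp (deriv (g t)) 2 := by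
    have h3 : MemLp (deriv (Wt t)) 2 := by
      have := h2.memLp 1 t hmem
      rwa [iteratedDeriv_one] at this
    have h4 : MemLp (deriv (deriv (flux (W t)))) 2 :=
      sG2.continuous.memLp_of_hasCompactSupport cF.deriv.deriv
    have e : deriv (g t) = fun x => deriv (Wt t) x + deriv (deriv (flux (W t))) x := by
      funext x
      exact deriv_fun_add ((sWt.differentiable (by simp)) x) ((sG1.differentiable (by simp)) x)
    rw [e]
    exact h3.add h4
  obtain ⟨i1, i2, i3⟩ := inn_facts (g := g) hl (sg.of_le (by exact_mod_cast le_top)) m0 m1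
  have er : resid α W Wt t = fun y => lam α t ^ 3 * inn α g t y := rfl
  have edr : deriv (resid α W Wt t) = fun y => lam α t ^ 3 * deriv (inn α g t) y := by
    rw [er]
    funext y
    exact deriv_const_mul _ ((i1.differentiable (by norm_num)) y)
  refine ⟨?_, ?_, ?_, ?_⟩
  · rw [er]; exact continuous_const.mul i1.continuous
  · rw [edr]; exact continuous_const.mul (i1.continuous_deriv (by norm_num))
  · rw [er]; exact (i2.const_mul _).integrable_sq
  · rw [edr]; exact (i3.const_mul _).integrable_sq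

/-- the linear term -/
lemma lin_term {α ρ F M G H : ℝ} {e v f : ℝ → ℝ} (hα : 0 < α) (hα1 : α < 1) (hrho : 0 < ρ)
    (hρ1 : ρ ≤ 1) (hF0 : 0 ≤ F) (hM0 : 0 ≤ M)
    (hG : G = F + F + 5 * M ^ 4 * F + 3 * (F / 2 + 4 * F)) (e2 : MemLp e 2)
    (w2 : (∫ y, |e y| * exp (-|y| / 2)) ≤ 4 * √H) (hvM : ∀ y, |v y| ≤ M)
    (hf0 : ∀ y, |f y| ≤ F * exp (-(3 / 4 * |y|)))
    (hf1 : ∀ y, |deriv f y| ≤ F * exp (-(3 / 4 * |y|)))
    (hf3 : ∀ y, |deriv (deriv (deriv f)) y| ≤ F * exp (-(3 / 4 * |y|))) :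
    |∫ y, e y * (deriv (deriv (deriv f)) y - deriv f y
              + 5 * v y ^ 4 * deriv f y - (2 * α + 1) * ρ * Lam f y)| ≤ 4 * G * √H := by
  have hG0 : 0 ≤ G := by rw [hG]; positivity
  have hx34 : ∀ y : ℝ, exp (-(3 / 4 * |y|)) ≤ exp (-|y| / 2) := by
    intro y
    apply exp_le_exp.2
    have := abs_nonneg y
    linarith
  have hint : Integrable (fun y => G * (|e y| * exp (-|y| / 2))) := by
    have hE2 : MemLp (fun y : ℝ => exp (-|y| / 2)) 2 := by
      have hc : Continuous (fun y : ℝ => exp (-|y| / 2)) := by fun_prop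
      rw [memLp_two_iff_integrable_sq hc.aestronglyMeasurable]
      have e : (fun y : ℝ => exp (-|y| / 2) ^ 2) = fun y : ℝ => exp (-(1 * |y|)) := by
        funext y
        rw [← Real.exp_nat_mul]
        congr 1
        push_cast
        ring
      rw [e]; exact exp_int one_pos
    exact ((e2.norm).integrable_mul hE2).const_mul G
  have hle : ∀ y, ‖e y * (deriv (deriv (deriv f)) y - deriv f y
            + 5 * v y ^ 4 * deriv f y - (2 * α + 1) * ρ * Lam f y)‖
            ≤ G * (|e y| * exp (-|y| / 2)) := by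
    intro y
    rw [Real.norm_eq_abs, abs_mul]
    have x1 := hf1 y
    have x3 := hf3 y
    have x0 := hf0 y
    have xx := hx34 y
    have hy4 : |y| * exp (-(3 / 4 * |y|)) ≤ 4 * exp (-|y| / 2) := by
      have h1 : |y| / 4 + 1 ≤ exp (|y| / 4) := Real.add_one_le_exp _
      have h2 : |y| ≤ 4 * exp (|y| / 4) := by
        have := exp_pos (|y| / 4)
        linarith
      calc |y| * exp (-(3 / 4 * |y|)) ≤ 4 * exp (|y| / 4) * exp (-(3 / 4 * |y|)) :=
            mul_le_mul_of_nonneg_right h2 (exp_pos _).le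
        _ = 4 * exp (-|y| / 2) := by
            rw [mul_assoc, ← Real.exp_add]
            congr 2
            ring
    have hLam : |Lam f y| ≤ (F / 2 + 4 * F) * exp (-|y| / 2) := by
      unfold Lam
      calc |f y / 2 + y * deriv f y| ≤ |f y / 2| + |y * deriv f y| := abs_add_le _ _
        _ = |f y| / 2 + |y| * |deriv f y| := by
            rw [abs_div, abs_mul, abs_of_pos (two_pos : (0 : ℝ) < 2)]
        _ ≤ F * exp (-(3 / 4 * |y|)) / 2 + |y| * (F * exp (-(3 / 4 * |y|))) := by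
            have := mul_le_mul_of_nonneg_left x1 (abs_nonneg y)
            linarith
        _ ≤ F * exp (-|y| / 2) / 2 + F * (4 * exp (-|y| / 2)) := by
            have h1 := mul_le_mul_of_nonneg_left xx hF0
            have h2 := mul_le_mul_of_nonneg_left hy4 hF0
            linarith [mul_comm (|y|) (F * exp (-(3 / 4 * |y|))),
              mul_assoc F (|y|) (exp (-(3 / 4 * |y|))), mul_left_comm (|y|) F (exp (-(3 / 4 * |y|)))]
        _ = (F / 2 + 4 * F) * exp (-|y| / 2) := by ring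
    have hexp0 := exp_pos (-|y| / 2)
    have hv4 : |v y ^ 4| ≤ M ^ 4 := by
      rw [abs_pow]
      exact pow_le_pow_left₀ (abs_nonneg _) (hvM y) 4
    have hF2 : F * exp (-(3 / 4 * |y|)) ≤ F * exp (-|y| / 2) := mul_le_mul_of_nonneg_left xx hF0
    have t3 : |5 * v y ^ 4 * deriv f y| ≤ 5 * M ^ 4 * (F * exp (-|y| / 2)) := by
      rw [abs_mul, abs_mul, abs_of_pos (by norm_num : (0 : ℝ) < 5)]
      exact mul_le_mul (mul_le_mul_of_nonneg_left hv4 (by norm_num)) (x1.trans hF2)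
        (abs_nonneg _) (by positivity)
    have t4 : |(2 * α + 1) * ρ * Lam f y| ≤ 3 * ((F / 2 + 4 * F) * exp (-|y| / 2)) := by
      rw [abs_mul]
      have h1 : |(2 * α + 1) * ρ| ≤ 3 := by
        rw [abs_of_nonneg (by positivity)]
        nlinarith
      exact mul_le_mul h1 hLam (abs_nonneg _) (by norm_num)
    have htot : |deriv (deriv (deriv f)) y - deriv f y
            + 5 * v y ^ 4 * deriv f y - (2 * α + 1) * ρ * Lam f y| ≤ G * exp (-|y| / 2) := by
      calc _ ≤ |deriv (deriv (deriv f)) y| + |deriv f y| + |5 * v y ^ 4 * deriv f y|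
            + |(2 * α + 1) * ρ * Lam f y| := by
            refine (abs_sub _ _).trans (add_le_add_left ((abs_add_le _ _).trans
              (add_le_add_left (abs_sub _ _) _)) _)
        _ ≤ F * exp (-|y| / 2) + F * exp (-|y| / 2) + 5 * M ^ 4 * (F * exp (-|y| / 2))
            + 3 * ((F / 2 + 4 * F) * exp (-|y| / 2)) := by
            linarith
        _ = G * exp (-|y| / 2) := by rw [hG]; ring
    calc |e y| * _ ≤ |e y| * (G * exp (-|y| / 2)) :=
          mul_le_mul_of_nonneg_left htot (abs_nonneg _)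
      _ = _ := by ring
  have h1 := norm_integral_le_of_norm_le hint (Filter.Eventually.of_forall hle)
  rw [Real.norm_eq_abs, integral_const_mul] at h1
  calc _ ≤ G * ∫ y, |e y| * exp (-|y| / 2) := h1
    _ ≤ G * (4 * √H) := mul_le_mul_of_nonneg_left w2 hG0
    _ = 4 * G * √H := by ring

/-- the quadratic term -/
lemma quad_term {F M Ct Cq H s J34 : ℝ} {e v U z f : ℝ → ℝ} {A : ℝ}
    (hF0 : 0 ≤ F) (hM0 : 0 ≤ M) (hCt : 0 ≤ Ct) (hs0 : 0 ≤ s) (hs2 : s ≤ 2) (hss : s ^ 2 ≤ 2 * A)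
    (hCq : Cq = 10 * M ^ 3 + 10 * M ^ 2 + 5 * M + 1) (hJ34 : J34 = ∫ y : ℝ, exp (-(3 / 4) * |y|))
    (hH0 : 0 ≤ H) (hHs : H ≤ √H) (hH52 : H ^ ((5 : ℝ) / 2) ≤ H)
    (hc : Continuous e) (e2 : MemLp e 2)
    (w3 : ∀ y, exp (-|y| / 4) * e y ^ 2 ≤ 4 * H)
    (w4 : (∫ y, e y ^ 2 * exp (-|y| / 2)) ≤ 2 * H)
    (w5 : (∫ y, |e y| ^ 5 * exp (-(3 / 4) * |y|)) ≤ 16 * H ^ ((5 : ℝ) / 2))
    (hvM : ∀ y, |v y| ≤ M)
    (hUv' : ∀ y, U y - v y = e y + z y)
    (hzX : ∀ y, |z y| ≤ (Ct * s) * exp (-(3 / 4) * |y|))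
    (hf1 : ∀ y, |deriv f y| ≤ F * exp (-(3 / 4 * |y|))) :
    |∫ y, (U y ^ 5 - v y ^ 5 - 5 * v y ^ 4 * (U y - v y)) * deriv f y|
      ≤ Cq * F * 260 * √H + Cq * F * ((2 * Ct ^ 2 + 128 * Ct ^ 5) * 2 * J34) * A := by
  have hCq0 : 0 ≤ Cq := by rw [hCq]; positivity
  have hJ340 : 0 ≤ J34 := by rw [hJ34]; exact integral_nonneg fun y => (exp_pos _).le
  have hx34 : ∀ y : ℝ, exp (-(3 / 4 * |y|)) ≤ exp (-|y| / 2) := by
    intro y
    apply exp_le_exp.2
    have := abs_nonneg y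
    linarith
  have hexp34 : ∀ y : ℝ, exp (-(3 / 4 * |y|)) = exp (-(3 / 4) * |y|) := by
    intro y; congr 1; ring
  have hs5 : s ^ 5 ≤ 8 * s ^ 2 := by
    have h1 : s ^ 3 ≤ 2 ^ 3 := pow_le_pow_left₀ hs0 hs2 3
    have h2 := mul_le_mul_of_nonneg_right h1 (sq_nonneg s)
    nlinarith
  -- integrability
  have hB4 : ∀ y, |e y| ^ 5 * exp (-(3 / 4) * |y|) ≤ (√(4 * H)) ^ 3 * e y ^ 2 := by
    intro y
    set x := |e y| with hx
    set E := exp (-|y| / 4) with hE
    have hx0 : 0 ≤ x := abs_nonneg _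
    have hE0 : 0 < E := exp_pos _
    have hE1 : E ≤ 1 := by
      apply exp_le_one_iff.2
      have := abs_nonneg y
      linarith
    have h1 : E * x ^ 2 ≤ 4 * H := by rw [hx, sq_abs]; exact w3 y
    have h2 : (x * E) ^ 2 ≤ 4 * H := by
      calc (x * E) ^ 2 = E * (E * x ^ 2) := by ring
        _ ≤ 1 * (E * x ^ 2) := mul_le_mul_of_nonneg_right hE1 (by positivity)
        _ ≤ 4 * H := by rw [one_mul]; exact h1
    have h3 : x * E ≤ √(4 * H) := Real.le_sqrt_of_sq_le h2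
    have h4 : exp (-(3 / 4) * |y|) = E ^ 3 := by
      rw [hE, ← Real.exp_nat_mul]; congr 1; push_cast; ring
    have h5 : e y ^ 2 = x ^ 2 := (sq_abs _).symm
    rw [h4, h5]
    calc x ^ 5 * E ^ 3 = x ^ 2 * (x * E) ^ 3 := by ring
      _ ≤ x ^ 2 * (√(4 * H)) ^ 3 := by gcongr
      _ = _ := by ring
  have i1 : Integrable (fun y => |e y| ^ 5 * exp (-(3 / 4) * |y|)) := by
    refine (e2.integrable_sq.const_mul ((√(4 * H)) ^ 3)).mono' ?_
      (Filter.Eventually.of_forall fun y => ?_)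
    · have : Continuous (fun y => |e y| ^ 5 * exp (-(3 / 4) * |y|)) := by fun_prop
      exact this.aestronglyMeasurable
    · rw [Real.norm_eq_abs, abs_of_nonneg (by positivity)]
      exact hB4 y
  have i2 : Integrable (fun y => e y ^ 2 * exp (-|y| / 2)) := by
    refine (e2.integrable_sq).mono' ?_ (Filter.Eventually.of_forall fun y => ?_)
    · have : Continuous (fun y => e y ^ 2 * exp (-|y| / 2)) := by fun_prop
      exact this.aestronglyMeasurable
    · rw [Real.norm_eq_abs, abs_of_nonneg (by positivity)]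
      have h2 : exp (-|y| / 2) ≤ 1 := by
        apply exp_le_one_iff.2
        have := abs_nonneg y
        linarith
      nlinarith [sq_nonneg (e y)]
  have hint : Integrable (fun y => Cq * F * (2 * (e y ^ 2 * exp (-|y| / 2))
      + 16 * (|e y| ^ 5 * exp (-(3 / 4) * |y|))
      + (2 * Ct ^ 2 + 128 * Ct ^ 5) * s ^ 2 * exp (-(3 / 4) * |y|))) :=
    (((i2.const_mul 2).add (i1.const_mul 16)).add (exp_int34.const_mul _)).const_mul _
  have hle : ∀ y, ‖(U y ^ 5 - v y ^ 5 - 5 * v y ^ 4 * (U y - v y)) * deriv f y‖ ≤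
      Cq * F * (2 * (e y ^ 2 * exp (-|y| / 2))
      + 16 * (|e y| ^ 5 * exp (-(3 / 4) * |y|))
      + (2 * Ct ^ 2 + 128 * Ct ^ 5) * s ^ 2 * exp (-(3 / 4) * |y|)) := by
    intro y
    rw [Real.norm_eq_abs, abs_mul]
    have hUv : U y - v y = e y + z y := hUv' y
    have hq := quint hM0 (hvM y) (e := e y + z y)
    rw [← hCq] at hq
    have hUe : v y + (e y + z y) = U y := by rw [← hUv]; ring
    rw [hUe] at hq
    rw [hUv]
    set X := exp (-(3 / 4) * |y|) with hX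
    have hX0 : 0 < X := exp_pos _
    have hX1 : X ≤ 1 := by
      apply exp_le_one_iff.2
      have := abs_nonneg y
      linarith
    have hzle : |z y| ≤ Ct * s := by
      calc |z y| ≤ (Ct * s) * X := hzX y
        _ ≤ (Ct * s) * 1 := mul_le_mul_of_nonneg_left hX1 (by positivity)
        _ = Ct * s := mul_one _
    have hz2 : z y ^ 2 ≤ Ct ^ 2 * s ^ 2 := by
      rw [← sq_abs (z y), ← mul_pow]
      exact pow_le_pow_left₀ (abs_nonneg _) hzle 2
    have hz5 : |z y| ^ 5 ≤ Ct ^ 5 * (8 * s ^ 2) := by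
      calc |z y| ^ 5 ≤ (Ct * s) ^ 5 := pow_le_pow_left₀ (abs_nonneg _) hzle 5
        _ = Ct ^ 5 * s ^ 5 := mul_pow _ _ _
        _ ≤ _ := mul_le_mul_of_nonneg_left hs5 (by positivity)
    have hsq2 : (e y + z y) ^ 2 ≤ 2 * e y ^ 2 + 2 * (Ct ^ 2 * s ^ 2) := by
      nlinarith [sq_nonneg (e y - z y)]
    have hsq5 : |e y + z y| ^ 5 ≤ 16 * |e y| ^ 5 + 16 * (Ct ^ 5 * (8 * s ^ 2)) := by
      have := sum_pow5 (x := e y) (y := z y)
      linarith
    have hd : |deriv f y| ≤ F * X := by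
      have := hf1 y
      rwa [hexp34] at this
    have hX2 : X ≤ exp (-|y| / 2) := by
      have := hx34 y
      rwa [hexp34] at this
    calc |U y ^ 5 - v y ^ 5 - 5 * v y ^ 4 * (e y + z y)| * |deriv f y|
        ≤ (Cq * ((e y + z y) ^ 2 + |e y + z y| ^ 5)) * (F * X) :=
          mul_le_mul hq hd (abs_nonneg _) (by positivity)
      _ ≤ (Cq * ((2 * e y ^ 2 + 2 * (Ct ^ 2 * s ^ 2))
            + (16 * |e y| ^ 5 + 16 * (Ct ^ 5 * (8 * s ^ 2))))) * (F * X) := by
          gcongr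
      _ = Cq * F * (2 * (e y ^ 2 * X) + 16 * (|e y| ^ 5 * X)
            + (2 * Ct ^ 2 + 128 * Ct ^ 5) * s ^ 2 * X) := by ring
      _ ≤ Cq * F * (2 * (e y ^ 2 * exp (-|y| / 2)) + 16 * (|e y| ^ 5 * X)
            + (2 * Ct ^ 2 + 128 * Ct ^ 5) * s ^ 2 * X) := by
          gcongr
  have h1 := norm_integral_le_of_norm_le hint (Filter.Eventually.of_forall hle)
  have j2 : Integrable (fun y => 2 * (e y ^ 2 * exp (-|y| / 2))) := i2.const_mul 2
  have j1 : Integrable (fun y => 16 * (|e y| ^ 5 * exp (-(3 / 4) * |y|))) := i1.const_mul 16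
  have j3 : Integrable (fun y : ℝ => (2 * Ct ^ 2 + 128 * Ct ^ 5) * s ^ 2 * exp (-(3 / 4) * |y|)) :=
    exp_int34.const_mul _
  have j4 : Integrable (fun y => 2 * (e y ^ 2 * exp (-|y| / 2))
      + 16 * (|e y| ^ 5 * exp (-(3 / 4) * |y|))) := j2.add j1
  rw [Real.norm_eq_abs, integral_const_mul, integral_add j4 j3, integral_add j2 j1,
    integral_const_mul, integral_const_mul, integral_const_mul] at h1
  have h2 : 2 * (∫ y, e y ^ 2 * exp (-|y| / 2)) + 16 * (∫ y, |e y| ^ 5 * exp (-(3 / 4) * |y|))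
      + (2 * Ct ^ 2 + 128 * Ct ^ 5) * s ^ 2 * J34
      ≤ 260 * √H + (2 * Ct ^ 2 + 128 * Ct ^ 5) * (2 * A) * J34 := by
    have h3 : (2 * Ct ^ 2 + 128 * Ct ^ 5) * s ^ 2 * J34
        ≤ (2 * Ct ^ 2 + 128 * Ct ^ 5) * (2 * A) * J34 := by gcongr
    linarith
  rw [← hJ34] at h1
  calc _ ≤ Cq * F * (2 * (∫ y, e y ^ 2 * exp (-|y| / 2))
        + 16 * (∫ y, |e y| ^ 5 * exp (-(3 / 4) * |y|))
        + (2 * Ct ^ 2 + 128 * Ct ^ 5) * s ^ 2 * J34) := h1
    _ ≤ Cq * F * (260 * √H + (2 * Ct ^ 2 + 128 * Ct ^ 5) * (2 * A) * J34) :=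
        mul_le_mul_of_nonneg_left h2 (by positivity)
    _ = _ := by ring

/-- the residual term -/
lemma res_term {K ρ F C J2 : ℝ} {N0 : ℕ} {R f : ℝ → ℝ} (hrho : 0 < ρ) (hF0 : 0 ≤ F)
    (hJ2 : J2 = ∫ y : ℝ, exp (-|y| / 2))
    (rc : Continuous R) (rc' : Continuous (deriv R)) (ri : Integrable (fun y => R y ^ 2))
    (ri' : Integrable (fun y => deriv R y ^ 2))
    (hres : (∫ y, wt K ρ y * (R y ^ 2 + deriv R y ^ 2)) ≤ C * ρ ^ (2 * N0))
    (w1 : ∀ y, exp (-|y| / 64) / 2 ≤ wt K ρ y ∧ wt K ρ y ≤ 1)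
    (hf0 : ∀ y, |f y| ≤ F * exp (-(3 / 4 * |y|))) :
    |∫ y, R y * f y| ≤ (|C| / 2 + F ^ 2 * J2) * ρ ^ N0 := by
  set δ := ρ ^ N0 with hδ
  have hδ0 : 0 < δ := by positivity
  have i1 : Integrable (fun y => wt K ρ y * (R y ^ 2 + deriv R y ^ 2)) := by
    refine (ri.add ri').mono' ?_ (Filter.Eventually.of_forall fun y => ?_)
    · exact ((wt_cont hrho).mul ((rc.pow 2).add (rc'.pow 2))).aestronglyMeasurable
    · have h1 := (w1 y).2
      have h2 := wt_pos (K := K) hrho y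
      rw [Real.norm_eq_abs, abs_of_nonneg (by positivity)]
      have h3 : 0 ≤ R y ^ 2 + deriv R y ^ 2 := by positivity
      have := mul_le_mul_of_nonneg_right h1 h3
      rw [one_mul] at this
      exact this
  have hint : Integrable (fun y => 1 / (2 * δ) * (wt K ρ y * (R y ^ 2 + deriv R y ^ 2))
      + δ * F ^ 2 * exp (-|y| / 2)) := (i1.const_mul _).add (exp_int2.const_mul _)
  have hle : ∀ y, ‖R y * f y‖ ≤ 1 / (2 * δ) * (wt K ρ y * (R y ^ 2 + deriv R y ^ 2))
      + δ * F ^ 2 * exp (-|y| / 2) := by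
    intro y
    have hw0 := wt_pos (K := K) hrho y
    have hw1 := (w1 y).1
    set w := wt K ρ y with hw
    have h1 : |R y * f y| ≤ 1 / (2 * δ) * (w * R y ^ 2) + δ / 2 * (f y ^ 2 / w) := by
      have h2 : 0 ≤ (w * |R y| - δ * |f y|) ^ 2 / (2 * δ * w) := by positivity
      have h3 : (w * |R y| - δ * |f y|) ^ 2 / (2 * δ * w)
          = 1 / (2 * δ) * (w * R y ^ 2) + δ / 2 * (f y ^ 2 / w) - |R y| * |f y| := by
        rw [← sq_abs (R y), ← sq_abs (f y)]
        field_simp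
        ring
      rw [abs_mul]
      linarith
    have h4 : f y ^ 2 / w ≤ 2 * (F ^ 2 * exp (-|y| / 2)) := by
      rw [div_le_iff₀ hw0]
      have h5 : f y ^ 2 ≤ F ^ 2 * exp (-(3 / 2 * |y|)) := by
        rw [← sq_abs (f y)]
        have h6 := pow_le_pow_left₀ (abs_nonneg _) (hf0 y) 2
        refine h6.trans (le_of_eq ?_)
        rw [mul_pow, ← Real.exp_nat_mul]
        congr 2
        push_cast
        ring
      have h7 : exp (-(3 / 2 * |y|)) ≤ exp (-|y| / 2) * exp (-|y| / 64) := by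
        rw [← Real.exp_add]
        apply exp_le_exp.2
        have := abs_nonneg y
        linarith
      calc f y ^ 2 ≤ F ^ 2 * exp (-(3 / 2 * |y|)) := h5
        _ ≤ F ^ 2 * (exp (-|y| / 2) * exp (-|y| / 64)) :=
            mul_le_mul_of_nonneg_left h7 (sq_nonneg F)
        _ = 2 * (F ^ 2 * exp (-|y| / 2)) * (exp (-|y| / 64) / 2) := by ring
        _ ≤ 2 * (F ^ 2 * exp (-|y| / 2)) * w :=
            mul_le_mul_of_nonneg_left hw1 (by positivity)
    have h8 : w * R y ^ 2 ≤ w * (R y ^ 2 + deriv R y ^ 2) :=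
      mul_le_mul_of_nonneg_left (by nlinarith [sq_nonneg (deriv R y)]) hw0.le
    rw [Real.norm_eq_abs]
    calc |R y * f y| ≤ 1 / (2 * δ) * (w * R y ^ 2) + δ / 2 * (f y ^ 2 / w) := h1
      _ ≤ 1 / (2 * δ) * (w * (R y ^ 2 + deriv R y ^ 2)) + δ / 2 * (2 * (F ^ 2 * exp (-|y| / 2))) :=
          add_le_add (mul_le_mul_of_nonneg_left h8 (by positivity))
            (mul_le_mul_of_nonneg_left h4 (by positivity))
      _ = _ := by ring
  have h1 := norm_integral_le_of_norm_le hint (Filter.Eventually.of_forall hle)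
  have j1 : Integrable (fun y => 1 / (2 * δ) * (wt K ρ y * (R y ^ 2 + deriv R y ^ 2))) :=
    i1.const_mul _
  have j2 : Integrable (fun y : ℝ => δ * F ^ 2 * exp (-|y| / 2)) := exp_int2.const_mul _
  rw [Real.norm_eq_abs, integral_add j1 j2, integral_const_mul, integral_const_mul] at h1
  have h2 : (∫ y, wt K ρ y * (R y ^ 2 + deriv R y ^ 2)) ≤ |C| * (δ * δ) := by
    refine hres.trans ?_
    have h3 : ρ ^ (2 * N0) = δ * δ := by rw [hδ, ← pow_add]; congr 1; ring
    rw [h3]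
    exact mul_le_mul_of_nonneg_right (le_abs_self C) (by positivity)
  rw [← hJ2] at h1
  calc _ ≤ 1 / (2 * δ) * (∫ y, wt K ρ y * (R y ^ 2 + deriv R y ^ 2)) + δ * F ^ 2 * J2 := h1
    _ ≤ 1 / (2 * δ) * (|C| * (δ * δ)) + δ * F ^ 2 * J2 := by
        have := mul_le_mul_of_nonneg_left h2 (by positivity : 0 ≤ 1 / (2 * δ))
        linarith
    _ = (|C| / 2 + F ^ 2 * J2) * δ := by field_simp

/-- the source terms -/
lemma src_term {ρ F Cs J2 : ℝ} (k : ℕ) {g f : ℝ → ℝ} (hrho : 0 < ρ) (hF0 : 0 ≤ F)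
    (hJ2 : J2 = ∫ y : ℝ, exp (-|y| / 2)) (hfF : ∀ y, |f y| ≤ F)
    (hg : ∀ y, |g y| ≤ Cs * ρ ^ k * exp (-|y| / 2)) :
    |∫ y, g y * f y| ≤ |Cs| * F * J2 * ρ ^ k := by
  have hint : Integrable (fun y : ℝ => |Cs| * ρ ^ k * F * exp (-|y| / 2)) := exp_int2.const_mul _
  have hle : ∀ y, ‖g y * f y‖ ≤ |Cs| * ρ ^ k * F * exp (-|y| / 2) := by
    intro y
    rw [Real.norm_eq_abs, abs_mul]
    calc |g y| * |f y| ≤ (|Cs| * ρ ^ k * exp (-|y| / 2)) * F := by
          apply mul_le_mul _ (hfF y) (abs_nonneg _) (by positivity)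
          refine (hg y).trans ?_
          gcongr
          exact le_abs_self Cs
      _ = _ := by ring
  have h1 := norm_integral_le_of_norm_le hint (Filter.Eventually.of_forall hle)
  rw [Real.norm_eq_abs, integral_const_mul, ← hJ2] at h1
  calc _ ≤ |Cs| * ρ ^ k * F * J2 := h1
    _ = _ := by ring

end Pool.Agent.Helper5.KV
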